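import Pool.Agent.J4H47.CG.Defs

/-!
# Both parts of the cone conjecture: definitions

`F` is a normal projective variety, `ℚ`-factorial with free class group `Cl(F) = ℤ^ρ`, and
`R = ⨁ 𝒜 β`, `𝒜 β = H⁰(F, O_F(β))`, is its Cox ring. Part (a) is about the nef cone and automorphisms,
part (b) about the movable cone and pseudo-automorphisms.
-/

set_option autoImplicit false

namespace Pool.Agent.J4H44.CP

open Pool.Agent.W594.SYZ2 Pool.Agent.TH735.AQ Pool.Agent.X324.CF
open Pool.Agent.J4H47.CG (real effConeF IsAction NormalizesP FixedP IsPullbackP)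
open Pool.Agent.Y167 (cone)
open Pool.Agent.Y167.CC (LinGrp Preserves IsFundDomain)

/-- The two parts of the conjecture. -/
inductive Part
  | a
  | b

section Fibre

variable {ρ : ℕ} {R : Type*} [CommRing R] [Algebra ℂ R] (t : Part) (𝒜 : Cl ρ → Submodule ℂ R)
  (u : Cl ρ)

/-- Part (a): the class `β` is semiample on `F`. Part (b): the class `β` is movable on `F`, the base
locus of `O_F(β)` contains no divisor. (Effective divisors of `F` are given by homogeneous elements
`e`; for `e = 0` the condition says that there is a section which is not zero.) -/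
def Positive (β : Cl ρ) : Prop :=
  match t with
  | .a => SemiampleF 𝒜 u β
  | .b => ∀ β', ∀ e ∈ 𝒜 β', (∀ r ∈ 𝒜 β, e ∣ r) → IsUnit e

/-- The nef cone of `F` (part (a)), the closed movable cone of `F` (part (b)). -/
def closedF : Set (Fin ρ → ℝ) := closure (coneHull {x | ∃ β, Positive t 𝒜 u β ∧ x = real β})

/-- The elements of `Ψ`, which permute the pieces of the Cox ring, are automorphisms of `F` and `F` is
not empty (part (a)); the Cox ring is factorial (part (b)). -/
def Kind (Ψ : Subgroup (R ≃ₐ[ℂ] R)) : Prop :=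
  match t with
  | .a => (∃ p : R →ₐ[ℂ] ℂ, Semistable 𝒜 u p) ∧ ∀ ψ ∈ Ψ, ∀ p : R →ₐ[ℂ] ℂ, Semistable 𝒜 u p →
      Semistable 𝒜 u (p.comp (ψ : R →ₐ[ℂ] R))
  | .b => UniqueFactorizationMonoid R

/-- `F` is a normal projective variety, `ℚ`-factorial with free class group, with ample class `u`:
every class becomes effective and semiample (movable) when a multiple of `u` is added; some integral
linear form on `Cl(F)` (the intersection number with a curve) is positive for all nonzero classes of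
the closed cone. `Ψ` is a group of automorphisms (pseudo-automorphisms) of `F`, given by automorphisms
of `R` which permute the homogeneous pieces, and only finitely many elements of `Ψ` (up to the
automorphisms of `R` which act trivially on `F`) act trivially on `Cl(F)`. -/
structure IsVariety (Ψ : Subgroup (R ≃ₐ[ℂ] R)) : Prop where
  kind : Kind t 𝒜 u Ψ
  sections : ∀ β : Cl ρ, ∃ m : ℕ, (∃ r ∈ 𝒜 (β + m • u), r ≠ 0) ∧ ∃ r ∈ 𝒜 (m • u), r ≠ 0
  ample : ∀ β : Cl ρ, ∃ m : ℕ, Positive t 𝒜 u (β + m • u)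
  curve : ∃ ξ : (Fin ρ → ℝ) →ₗ[ℝ] ℝ, (∀ β : Cl ρ, ∃ k : ℤ, ξ (real β) = k) ∧
    ∀ x ∈ closedF t 𝒜 u, x ≠ 0 → 0 < ξ x
  perm : ∀ ψ ∈ Ψ, ∃ σ, Induces 𝒜 ψ σ
  discrete : ∃ T : Set (R ≃ₐ[ℂ] R), T.Finite ∧ ∀ ψ ∈ Ψ, Induces 𝒜 ψ (AddEquiv.refl _) →
    ∃ t ∈ T, t⁻¹ * ψ ∈ Scal 𝒜

/-- The set `K` contains a rational polyhedral cone, spanned by classes `w i`, whose translates under
`Ψ` cover `L`. -/
def HasCover (Ψ : Subgroup (R ≃ₐ[ℂ] R)) (K L : Set (Fin ρ → ℝ)) : Prop :=
  ∃ (n : ℕ) (w : Fin n → Cl ρ), (∀ i, real (w i) ∈ K) ∧ ∀ x ∈ L, ∃ ψ ∈ Ψ, ∃ s, IsAction 𝒜 ψ s ∧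
    ∃ c : Fin n → ℝ, (∀ i, 0 ≤ c i) ∧ s x = ∑ i, c i • real (w i)

/-- The weak form of the cone conjecture for `F` and `Ψ`: the cone `Nef^e(F)` (`Mov^e(F)`) of effective
classes in the closed cone is covered by the translates of a rational polyhedral cone in this cone. -/
def WeakForm (Ψ : Subgroup (R ≃ₐ[ℂ] R)) : Prop :=
  HasCover 𝒜 Ψ (closedF t 𝒜 u ∩ effConeF 𝒜) (closedF t 𝒜 u ∩ effConeF 𝒜)

/-- The interior of the closed cone is covered by the translates of a rational polyhedral cone in the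
closed cone. -/
def BigForm (Ψ : Subgroup (R ≃ₐ[ℂ] R)) : Prop :=
  HasCover 𝒜 Ψ (closedF t 𝒜 u) (interior (closedF t 𝒜 u))

end Fibre

section Product

variable {ρ k : ℕ} {R : Type*} [CommRing R] [Algebra ℂ R] (𝒜 : Cl ρ → Submodule ℂ R)
  (Ψ : Subgroup (R ≃ₐ[ℂ] R)) {ρ' : Fin k → ℕ} {R' : Fin k → Type*} [∀ i, CommRing (R' i)]
  [∀ i, Algebra ℂ (R' i)]

/-- `F` is the product of the varieties `F_i`, with `Cl(F) = ⨁ Cl(F_i)`: the class group of `F_i` is
`Cl (ρ' i)`, its Cox ring is `R' i`, with the pieces `ℬ i β`, the pullback of sections from `F_i` to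
`F` is `p i`, and the sections of the class of `F` with the components `d β i` are the linear
combinations of products of pullbacks of sections (Künneth formula). The only functions on `F_i` are
the constants, and `O(β)` is trivial only for `β = 0`. The points of `F` are the tuples of points of
the `F_i`. The elements of the product of the groups `Ψ' i`, acting on the factors, are in `Ψ`. -/
structure IsProd (ℬ : ∀ i, Cl (ρ' i) → Submodule ℂ (R' i)) (Ψ' : ∀ i, Subgroup (R' i ≃ₐ[ℂ] R' i))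
    (p : ∀ i, R' i →ₐ[ℂ] R) (d : Cl ρ ≃+ ∀ i, Cl (ρ' i)) : Prop where
  inj : ∀ i, Function.Injective (p i)
  const : ∀ i, ∀ r ∈ ℬ i 0, ∃ c : ℂ, r = algebraMap ℂ (R' i) c
  unit : ∀ i β, ∀ r ∈ ℬ i β, IsUnit r → β = 0
  span : ∀ β, 𝒜 β = Submodule.span ℂ {r | ∃ f : ∀ i, R' i, (∀ i, f i ∈ ℬ i (d β i)) ∧
    r = ∏ i, p i (f i)}
  points : ∀ q : ∀ i, R' i →ₐ[ℂ] ℂ, ∃ P : R →ₐ[ℂ] ℂ, ∀ i, P.comp (p i) = q i
  lift : ∀ ψ : ∀ i, R' i ≃ₐ[ℂ] R' i, (∀ i, ψ i ∈ Ψ' i) → ∃ φ ∈ Ψ, ∀ i r, φ (p i r) = p i (ψ i r)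

end Product

section Quotient

variable {V R : Type*} [NormedAddCommGroup V] [NormedSpace ℂ V] [CommRing R] [Algebra ℂ R] {ρ : ℕ}
  (𝒜 : Cl ρ → Submodule ℂ R) (Γ : Grp V R)

/-- The space `N^1(X)`, `X = (V × F) / Γ`. -/
def NS : Type _ := N1 𝒜 Γ (LinearMap.id : V →ₗ[ℂ] V)

noncomputable instance : AddCommGroup (NS 𝒜 Γ) :=
  instAddCommGroupN1 𝒜 Γ LinearMap.id

noncomputable instance : Module ℝ (NS 𝒜 Γ) :=
  instModuleRealN1 𝒜 Γ LinearMap.id

noncomputable instance : TopologicalSpace (NS 𝒜 Γ) :=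
  instTopologicalSpaceN1 𝒜 Γ LinearMap.id

/-- The integral classes. -/
def intX : Set (NS 𝒜 Γ) := integral 𝒜 Γ LinearMap.id

/-- The effective cone of `X`. -/
def effX : Set (NS 𝒜 Γ) := effCone 𝒜 Γ LinearMap.id

/-- The nef cone of `X` (part (a)), the closed movable cone of `X` (part (b)). -/
def closedX (t : Part) (u : Cl ρ) : Set (NS 𝒜 Γ) :=
  match t with
  | .a => nefCone 𝒜 Γ LinearMap.id u
  | .b => movCone 𝒜 Γ LinearMap.id

variable {𝒜 Γ}

/-- The linear map `G` is the pullback by the pseudo-automorphism of `X` given by the pair `g`. -/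
def PullsBack (g : Elt V R) (G : NS 𝒜 Γ ≃ₗ[ℝ] NS 𝒜 Γ) : Prop :=
  IsPullbackP (𝒜 := 𝒜) (Γ := Γ) (j := (LinearMap.id : V →ₗ[ℂ] V)) g G

variable (𝒜 Γ)

/-- The condition `Q` on automorphisms of `X` is either empty, or it is satisfied by all automorphisms
which preserve an effective divisor `Δ` with real coefficients, such that `K_X + Δ` is numerically
trivial, and `Δ` is preserved by the automorphisms of `X` given by elements of `Ψ`. -/
def IsCondition (Ψ : Subgroup (R ≃ₐ[ℂ] R)) (Q : Elt V R → Prop) : Prop :=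
  (∀ g, Q g) ∨ ∃ (m : ℕ) (Δ : EffDiv 𝒜 Γ (Fin m)), NumTrivial Δ (LinearMap.id : V →ₗ[ℂ] V) ∧
    (∀ g, g.1 = 1 → g.2 ∈ Ψ → NormalizesP 𝒜 Γ g → FixedP Δ g) ∧ ∀ g, FixedP Δ g → Q g

variable {𝒜 Γ}

/-- `𝒢` is a group of linear automorphisms of `N^1(X)` which preserves a subgroup `M` of finite index of
the group of integral classes, the closed cone `C` and the effective cone, and which contains the
pullbacks by all pseudo-automorphisms of `X` which satisfy the condition `Q` and are given by a pair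
`(f, ψ)` of an affine transformation `f` of `V` and `ψ ∈ Ψ`. (The integral classes are the classes of the
linearised reflexive sheaves on `V × F`. The classes of the Weil divisors of `X` are a subgroup of
finite index, and even all integral classes if no element of `Γ` fixes a divisor of `V × F`.) If `C` is
the nef cone and `Ψ` a group of automorphisms of `F`, the image of `Aut(X)` has these properties, for
every `Q`, and the image of `Aut(X, Δ)` if `Q` says that the divisors which are the components of `Δ`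
are preserved. If `C` is the closed movable cone, the images of `PsAut(X)` and `PsAut(X, Δ)` have these
properties. -/
structure IsGroup (Ψ : Subgroup (R ≃ₐ[ℂ] R)) (Q : Elt V R → Prop) (C : Set (NS 𝒜 Γ))
    (M : AddSubgroup (NS 𝒜 Γ)) (𝒢 : LinGrp (NS 𝒜 Γ)) : Prop where
  int : ∀ a ∈ M, a ∈ intX 𝒜 Γ
  index : ∃ m : ℕ, 0 < m ∧ ∀ a ∈ intX 𝒜 Γ, (m : ℝ) • a ∈ M
  lattice : Preserves 𝒢 (M : Set (NS 𝒜 Γ))
  closed : Preserves 𝒢 C
  eff : Preserves 𝒢 (effX 𝒜 Γ)
  pull : ∀ g : Elt V R, g.2 ∈ Ψ → NormalizesP 𝒜 Γ g → Q g → ∀ G, PullsBack g G → G ∈ 𝒢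

/-- The cone `K` has a rational polyhedral fundamental domain for the action of `𝒢`. -/
def HasDomain (𝒢 : LinGrp (NS 𝒜 Γ)) (K : Set (NS 𝒜 Γ)) : Prop :=
  ∃ S : Finset (NS 𝒜 Γ), ↑S ⊆ intX 𝒜 Γ ∧ IsFundDomain 𝒢 K (cone S)

/-- The convex cone spanned by the integral classes in the closed cone `C`, that is, the convex hull of
the rational classes in `C`; this is `Nef^+(X)` or `Mov^+(X)`. -/
def ratHull (C : Set (NS 𝒜 Γ)) : Set (NS 𝒜 Γ) := coneHull (C ∩ intX 𝒜 Γ)

end Quotient

end Pool.Agent.J4H44.CP
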