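import Pool.Agent.J4H44.CP.Plus
import Pool.Agent.J4H44.CP.Defs

/-!
# The general theorem with the definitions of `Pool.Agent.J4H44.CP.Defs`
-/

set_option autoImplicit false

namespace Pool.Agent.J4H44.CP

open Finset
open Pool.Agent.W594.SYZ2 Pool.Agent.TH735.AQ Pool.Agent.X324.CF
open Pool.Agent.J4H47.CG (real effConeF nefConeF IsAction IsFibre HoldsF NormalizesP FixedP
  IsPullbackP gal_le)
open Pool.Agent.J4H47.MG (Sys HoldsP HoldsI Good IsProduct ContainsProduct HoldsM HoldsBig good_mov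
  closure_eqG)
open Pool.Agent.Y167 (cone Rel Cp)
open Pool.Agent.Y167.CC (LinGrp Preserves IsFundDomain)

section Fibre

variable {ρ : ℕ} {R : Type*} [CommRing R] [Algebra ℂ R] {𝒜 : Cl ρ → Submodule ℂ R} {u : Cl ρ}
  {Ψ : Subgroup (R ≃ₐ[ℂ] R)}

theorem IsVariety.fibre (h : IsVariety .a 𝒜 u Ψ) : IsFibre 𝒜 u Ψ where
  point := h.kind.1
  sections := h.sections
  ample := h.ample
  curve := h.curve
  perm := h.perm
  points := h.kind.2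
  discrete := h.discrete

theorem IsVariety.var (h : IsVariety .b 𝒜 u Ψ) : Pool.Agent.J4H47.MG.IsVariety 𝒜 u Ψ where
  ufd := h.kind
  sections := h.sections
  ample := h.ample
  curve := h.curve
  perm := h.perm
  discrete := h.discrete

theorem WeakForm.holdsF (h : WeakForm .a 𝒜 u Ψ) : ∃ (n : ℕ) (w : Fin n → Cl ρ), HoldsF 𝒜 u Ψ w := by
  obtain ⟨n, w, h1, h2⟩ := h
  exact ⟨n, w, h1, h2⟩

theorem WeakForm.holdsM (h : WeakForm .b 𝒜 u Ψ) : ∃ (n : ℕ) (w : Fin n → Cl ρ), HoldsM 𝒜 Ψ w := by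
  obtain ⟨n, w, h1, h2⟩ := h
  exact ⟨n, w, h1, h2⟩

theorem BigForm.holdsAmple (h : BigForm .a 𝒜 u Ψ) :
    ∃ (n : ℕ) (w : Fin n → Cl ρ), HoldsAmple 𝒜 u Ψ w := by
  obtain ⟨n, w, h1, h2⟩ := h
  exact ⟨n, w, h1, h2⟩

theorem BigForm.holdsBig (h : BigForm .b 𝒜 u Ψ) :
    ∃ (n : ℕ) (w : Fin n → Cl ρ), HoldsBig 𝒜 Ψ w := by
  obtain ⟨n, w, h1, h2⟩ := h
  exact ⟨n, w, h1, h2⟩

end Fibre

section Product

variable {ρ k : ℕ} {R : Type*} [CommRing R] [Algebra ℂ R] {𝒜 : Cl ρ → Submodule ℂ R}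
  {Ψ : Subgroup (R ≃ₐ[ℂ] R)} {ρ' : Fin k → ℕ} {R' : Fin k → Type*} [∀ i, CommRing (R' i)]
  [∀ i, Algebra ℂ (R' i)] {ℬ : ∀ i, Cl (ρ' i) → Submodule ℂ (R' i)}
  {Ψ' : ∀ i, Subgroup (R' i ≃ₐ[ℂ] R' i)} {p : ∀ i, R' i →ₐ[ℂ] R} {d : Cl ρ ≃+ ∀ i, Cl (ρ' i)}

theorem IsProd.product (h : IsProd 𝒜 Ψ ℬ Ψ' p d) : IsProduct 𝒜 ℬ p d :=
  ⟨h.inj, h.const, h.unit, h.span⟩

theorem IsProd.contains (h : IsProd 𝒜 Ψ ℬ Ψ' p d) : ContainsProduct p Ψ' Ψ := by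
  classical
  intro i ψ hψ
  obtain ⟨φ, hφ, h1⟩ := h.lift (Function.update 1 i ψ) (fun l => by
    by_cases hl : l = i
    · subst hl
      rw [Function.update_self]
      exact hψ
    · rw [Function.update_of_ne hl]
      exact (Ψ' l).one_mem)
  refine ⟨φ, hφ, fun r => ?_, fun l hl r => ?_⟩
  · have h2 := h1 i r
    rwa [Function.update_self] at h2
  · have h2 := h1 l r
    rwa [Function.update_of_ne hl] at h2

end Product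

section Quotient

variable {V R : Type*} [NormedAddCommGroup V] [NormedSpace ℂ V] [FiniteDimensional ℂ V]
  [CommRing R] [IsDomain R] [Algebra ℂ R] {ρ : ℕ}
  {𝒜 : Cl ρ → Submodule ℂ R} [GradedAlgebra 𝒜] {Γ : Grp V R}
  {u : Cl ρ} {Ψ : Subgroup (R ≃ₐ[ℂ] R)} {P : Cl ρ → Prop} {H₀ : V → V → ℂ}

theorem cp_coneHull (D : Sys 𝒜 u Ψ P) (hQ : IsQuotient 𝒜 u Γ) (hΓ : gal Γ ≤ Ψ)
    {𝒦 : Set (N1 𝒜 Γ (LinearMap.id : V →ₗ[ℂ] V))} (hP : Good P 𝒦)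
    (Rl : Rel (base Γ) (LinearMap.id : V →ₗ[ℂ] V) H₀) :
    Cp (intL 𝒜 Γ (LinearMap.id : V →ₗ[ℂ] V))
      (Pool.Agent.J4H47.MG.KG 𝒜 Γ (LinearMap.id : V →ₗ[ℂ] V) P) =
      coneHull (closure (coneHull 𝒦) ∩ integral 𝒜 Γ (LinearMap.id : V →ₗ[ℂ] V)) := by
  rw [closure_eqG D hQ hΓ hP Rl]
  ext x
  constructor
  · rintro ⟨S, hS, hx⟩
    exact ⟨S, fun a ha => ⟨(hS a ha).2, (hS a ha).1⟩, hx⟩
  · rintro ⟨S, hS, hx⟩
    exact ⟨S, fun a ha => ⟨(hS ha).2, (hS ha).1⟩, hx⟩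

theorem cond {Q : Elt V R → Prop} (h : IsCondition 𝒜 Γ Ψ Q) : Old.IsCondition 𝒜 Ψ Γ Q := by
  rcases h with h | ⟨m, Δ, h1, h2, h3⟩
  · exact Or.inl h
  · exact Or.inr ⟨m, Δ, h1, fun ψ hψ hn => h2 (1, ψ) rfl hψ hn, h3⟩

end Quotient

end Pool.Agent.J4H44.CP
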