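import Pool.Agent.J4H47.MG.Final

/-!
# Fundamental domains for groups which preserve a lattice of finite index
-/

set_option autoImplicit false

namespace Pool.Agent.J4H44.CP

open Finset
open Pool.Agent.Y167 (cone cone_smul cone_le cone_sum mem_cone_self cone_of_scaled Cp CData)

variable {W : Type*} [AddCommGroup W] [Module ℝ W]

/-- The group `M` is contained in `L` and contains the multiples by `m` of the elements of `L`. -/
structure Index (L M : AddSubgroup W) (m : ℕ) : Prop where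
  pos : 0 < m
  le : ∀ a ∈ M, a ∈ L
  mul : ∀ a ∈ L, (m : ℝ) • a ∈ M

variable {L M : AddSubgroup W} {m : ℕ} {Nf : Set W} {ξ₀ : W →ₗ[ℝ] ℝ} {y₀ : W} {Y : Finset W}

theorem smul_y (D : CData L Nf ξ₀ y₀ Y) (h : Index L M m) [DecidableEq W] :
    CData M Nf ξ₀ ((m : ℝ) • y₀) (Y.image fun y => (m : ℝ) • y) := by
  have hm : (0 : ℝ) < m := by exact_mod_cast h.pos
  exact {
    add := D.add
    smul := D.smul
    xi_int := fun x hx => D.xi_int x (h.le x hx)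
    xi_pos := D.xi_pos
    fin := fun C => (D.fin C).subset fun x hx => ⟨h.le x hx.1, hx.2.1, hx.2.2⟩
    y_L := h.mul _ D.y_L
    y_N := D.smul _ hm.le _ D.y_N
    y_int := fun x => by
      obtain ⟨C, hC, h1⟩ := D.y_int x
      refine ⟨C / m, div_pos hC hm, ?_⟩
      rwa [smul_smul, div_mul_cancel₀ _ hm.ne']
    dom := D.dom
    sep := fun x hx => by
      obtain ⟨η, h1, h2⟩ := D.sep x hx
      exact ⟨η, fun y hy => h1 y (h.le y hy), h2⟩
    Y_mem := fun y hy => by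
      obtain ⟨z, hz, rfl⟩ := Finset.mem_image.1 hy
      obtain ⟨h1, h2⟩ := D.Y_mem z hz
      exact ⟨h.mul _ h1, D.smul _ hm.le _ h2⟩
    Y_span := fun φ hφ => by
      refine D.Y_span φ fun y hy => ?_
      have h1 := hφ _ (Finset.mem_image_of_mem _ hy)
      rw [map_smul, smul_eq_zero] at h1
      exact h1.resolve_left hm.ne' }

theorem cp_eq (D : CData L Nf ξ₀ y₀ Y) (h : Index L M m) : Cp M Nf = Cp L Nf := by
  classical
  have hm : (0 : ℝ) < m := by exact_mod_cast h.pos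
  ext x
  constructor
  · rintro ⟨S, hS, hx⟩
    exact ⟨S, fun a ha => ⟨h.le _ (hS a ha).1, (hS a ha).2⟩, hx⟩
  · rintro ⟨S, hS, hx⟩
    refine ⟨S.image fun a => (m : ℝ) • a, fun b hb => ?_, cone_le (fun a ha => ?_) hx⟩
    · obtain ⟨a, ha, rfl⟩ := Finset.mem_image.1 hb
      exact ⟨h.mul _ (hS a ha).1, D.smul _ hm.le _ (hS a ha).2⟩
    · exact cone_of_scaled hm (Finset.mem_image_of_mem (fun a => (m : ℝ) • a) ha)

/-- The fundamental domain for a group which preserves the lattice `M`. -/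
theorem domain (D : CData L Nf ξ₀ y₀ Y) (h : Index L M m) (𝒢 : Subgroup (W ≃ₗ[ℝ] W))
    (hM : ∀ g ∈ 𝒢, ∀ x ∈ M, g x ∈ M) (hN : ∀ g ∈ 𝒢, ∀ x ∈ Nf, g x ∈ Nf)
    (F : Finset W) (hF : ∀ a ∈ F, a ∈ L ∧ a ∈ Nf)
    (hcov : ∀ x, (∃ t : ℝ, 0 < t ∧ x - t • y₀ ∈ Nf) → ∃ g ∈ 𝒢, g x ∈ cone F) :
    ∃ S : Finset W, (∀ a ∈ S, a ∈ L ∧ a ∈ Nf) ∧
      (∀ x, x ∈ Cp L Nf ↔ ∃ g ∈ 𝒢, g x ∈ cone S) ∧
      ∀ g ∈ 𝒢, g ≠ 1 → ∃ φ : W →ₗ[ℝ] ℝ, φ ≠ 0 ∧ (∀ x ∈ cone S, 0 ≤ φ x) ∧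
        ∀ x ∈ cone S, φ (g x) ≤ 0 := by
  classical
  have hm : (0 : ℝ) < m := by exact_mod_cast h.pos
  obtain ⟨S, h1, h2, h3⟩ := (smul_y D h).domain 𝒢 hM hN (F.image fun a => (m : ℝ) • a)
    (fun b hb => by
      obtain ⟨a, ha, rfl⟩ := Finset.mem_image.1 hb
      exact ⟨h.mul _ (hF a ha).1, D.smul _ hm.le _ (hF a ha).2⟩)
    (fun x hx => by
      obtain ⟨t, ht, h4⟩ := hx
      obtain ⟨g, hg, h5⟩ := hcov x ⟨t * m, mul_pos ht hm, by rwa [← smul_smul]⟩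
      exact ⟨g, hg, cone_le (fun a ha =>
        cone_of_scaled hm (Finset.mem_image_of_mem (fun a => (m : ℝ) • a) ha)) h5⟩)
  refine ⟨S, fun a ha => ⟨h.le _ (h1 a ha).1, (h1 a ha).2⟩, fun x => ?_, h3⟩
  rw [← cp_eq D h]
  exact h2 x

end Pool.Agent.J4H44.CP
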