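import Pool.Agent.J4H44.CP.Bridge

/-!
# The main theorem
-/

set_option autoImplicit false

namespace Pool.Agent.J4H44.CP

open Finset
open Pool.Agent.W594.SYZ2 Pool.Agent.TH735.AQ Pool.Agent.X324.CF
open Pool.Agent.J4H47.CG (real effConeF nefConeF IsAction IsFibre HoldsF NormalizesP FixedP
  IsPullbackP gal_le)
open Pool.Agent.J4H47.MG (Sys HoldsP HoldsI Good IsProduct ContainsProduct HoldsM HoldsBig good_mov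
  closure_eqG)
open Pool.Agent.Y167 (cone Rel Cp)
open Pool.Agent.Y167.CC (LinGrp Preserves IsFundDomain)

variable {V R : Type*} [NormedAddCommGroup V] [NormedSpace ℂ V] [FiniteDimensional ℂ V]
  [CommRing R] [IsDomain R] [Algebra ℂ R] {ρ : ℕ}
  {𝒜 : Cl ρ → Submodule ℂ R} [GradedAlgebra 𝒜] {Γ : Grp V R}
  {u : Cl ρ} {Ψ : Subgroup (R ≃ₐ[ℂ] R)} {P : Cl ρ → Prop} {H₀ : V → V → ℂ}

/-- The weak form implies the strong form. -/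
theorem weak {n : ℕ} {w : Fin n → Cl ρ} (D : Sys 𝒜 u Ψ P) (Hd : HoldsP 𝒜 Ψ P w)
    (hQ : IsQuotient 𝒜 u Γ) (hΓ : ∀ γ ∈ Γ, γ.2 ∈ Ψ)
    {𝒦 : Set (N1 𝒜 Γ (LinearMap.id : V →ₗ[ℂ] V))} (hP : Good P 𝒦)
    (hproj : ∃ (L : Sheaf 𝒜 Γ) (H : V → V → ℂ), L.IsChern H ∧ IsPositiveForm H)
    {Q : Elt V R → Prop} (hcond : IsCondition 𝒜 Γ Ψ Q)
    {M : AddSubgroup (NS 𝒜 Γ)} {𝒢 : LinGrp (NS 𝒜 Γ)}
    (hG : IsGroup Ψ Q (closure (coneHull 𝒦) : Set (N1 𝒜 Γ (LinearMap.id : V →ₗ[ℂ] V))) M 𝒢) :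
    HasDomain 𝒢 ((closure (coneHull 𝒦) : Set (N1 𝒜 Γ (LinearMap.id : V →ₗ[ℂ] V))) ∩ effX 𝒜 Γ) ∧
    (closure (coneHull 𝒦) : Set (N1 𝒜 Γ (LinearMap.id : V →ₗ[ℂ] V))) ∩ effX 𝒜 Γ =
      ratHull (closure (coneHull 𝒦) : Set (N1 𝒜 Γ (LinearMap.id : V →ₗ[ℂ] V))) := by
  obtain ⟨m, hm, hM⟩ := hG.index
  obtain ⟨⟨S, h1, -, h2⟩, -⟩ := final_eff D Hd hQ hΓ hP hproj (cond hcond) (M := M)
    ⟨hm, hG.int, hM⟩ 𝒢 hG.lattice (fun g hg a ha => ⟨hG.closed g hg a ha.1, hG.eff g hg a ha.2⟩)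
    hG.pull
  refine ⟨⟨S, h1, h2⟩, ?_⟩
  obtain ⟨H₀, Rl⟩ := rel_id hQ hproj
  exact (Pool.Agent.J4H47.MG.cp_eqG D Hd hQ (gal_le hΓ) hP Rl).trans
    (cp_coneHull D hQ (gal_le hΓ) hP Rl)

/-- The theorem for the rational hull. -/
theorem big {n : ℕ} {w : Fin n → Cl ρ} (D : Sys 𝒜 u Ψ P) (Hd : HoldsI 𝒜 Ψ P w)
    (hQ : IsQuotient 𝒜 u Γ) (hΓ : ∀ γ ∈ Γ, γ.2 ∈ Ψ)
    {𝒦 : Set (N1 𝒜 Γ (LinearMap.id : V →ₗ[ℂ] V))} (hP : Good P 𝒦)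
    (hproj : ∃ (L : Sheaf 𝒜 Γ) (H : V → V → ℂ), L.IsChern H ∧ IsPositiveForm H)
    {Q : Elt V R → Prop} (hcond : IsCondition 𝒜 Γ Ψ Q)
    {M : AddSubgroup (NS 𝒜 Γ)} {𝒢 : LinGrp (NS 𝒜 Γ)}
    (hG : IsGroup Ψ Q (closure (coneHull 𝒦) : Set (N1 𝒜 Γ (LinearMap.id : V →ₗ[ℂ] V))) M 𝒢) :
    HasDomain 𝒢 (ratHull (closure (coneHull 𝒦) : Set (N1 𝒜 Γ (LinearMap.id : V →ₗ[ℂ] V)))) := by
  obtain ⟨m, hm, hM⟩ := hG.index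
  obtain ⟨S, h1, -, h2⟩ := final_plus D Hd hQ hΓ hP hproj (cond hcond) (M := M)
    ⟨hm, hG.int, hM⟩ 𝒢 hG.lattice hG.closed hG.pull
  refine ⟨S, h1, ?_⟩
  obtain ⟨H₀, Rl⟩ := rel_id hQ hproj
  have h3 := (Pool.Agent.J4H47.MG.cp_hull_eq D hQ (gal_le hΓ) hP Rl).symm.trans
    (cp_coneHull D hQ (gal_le hΓ) hP Rl)
  rw [h3] at h2
  exact h2

variable {k : ℕ} {ρ' : Fin k → ℕ} {R' : Fin k → Type*} [∀ i, CommRing (R' i)]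
  [∀ i, IsDomain (R' i)] [∀ i, Algebra ℂ (R' i)] {ℬ : ∀ i, Cl (ρ' i) → Submodule ℂ (R' i)}
  [∀ i, GradedAlgebra (ℬ i)] {Ψ' : ∀ i, Subgroup (R' i ≃ₐ[ℂ] R' i)} {p : ∀ i, R' i →ₐ[ℂ] R}
  {d : Cl ρ ≃+ ∀ i, Cl (ρ' i)} {u' : ∀ i, Cl (ρ' i)}

theorem main (t : Part) (hF : IsVariety t 𝒜 u Ψ) (hd : d u = u') (hprod : IsProd 𝒜 Ψ ℬ Ψ' p d)
    (hX : IsQuotient 𝒜 u Γ) (hΓ : ∀ γ ∈ Γ, γ.2 ∈ Ψ)
    (hproj : ∃ (L : Sheaf 𝒜 Γ) (H : V → V → ℂ), L.IsChern H ∧ IsPositiveForm H)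
    {Q : Elt V R → Prop} (hQ : IsCondition 𝒜 Γ Ψ Q)
    {M : AddSubgroup (NS 𝒜 Γ)} {𝒢 : LinGrp (NS 𝒜 Γ)} (hG : IsGroup Ψ Q (closedX 𝒜 Γ t u) M 𝒢) :
    ((∀ i, WeakForm t (ℬ i) (u' i) (Ψ' i)) →
      HasDomain 𝒢 (closedX 𝒜 Γ t u ∩ effX 𝒜 Γ) ∧
        closedX 𝒜 Γ t u ∩ effX 𝒜 Γ = ratHull (closedX 𝒜 Γ t u)) ∧
    ((∀ i, BigForm t (ℬ i) (u' i) (Ψ' i)) → HasDomain 𝒢 (ratHull (closedX 𝒜 Γ t u))) := by
  subst hd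
  cases t with
  | a =>
    refine ⟨fun h => ?_, fun h => ?_⟩
    · choose n w hw using fun i => (h i).holdsF
      obtain ⟨N, W, hW⟩ := holds_prodNef hF.fibre hprod.product hprod.points hprod.contains hw
      exact weak (fib_sys hF.fibre) (fib_holds hW) hX hΓ (good_semi hF.fibre hX) hproj hQ hG
    · choose n w hw using fun i => (h i).holdsAmple
      obtain ⟨N, W, hW⟩ := holds_prodAmple hF.fibre hprod.product hprod.points hprod.contains hw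
      exact big (fib_sys hF.fibre) hW.holds hX hΓ (good_semi hF.fibre hX) hproj hQ hG
  | b =>
    refine ⟨fun h => ?_, fun h => ?_⟩
    · choose n w hw using fun i => (h i).holdsM
      obtain ⟨N, W, hW⟩ := Pool.Agent.J4H47.MG.holds_prod hF.var hprod.product hprod.contains hw
      exact weak hF.var.sys hW.holds hX hΓ (good_mov hF.var hX) hproj hQ hG
    · choose n w hw using fun i => (h i).holdsBig
      obtain ⟨N, W, hW⟩ := Pool.Agent.J4H47.MG.holds_prodBig hF.var hprod.product hprod.contains hw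
      exact big hF.var.sys hW.holds hX hΓ (good_mov hF.var hX) hproj hQ hG

end Pool.Agent.J4H44.CP
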