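import Pool.Agent.J4H44.CP.Core

/-!
# The system of semiample classes
-/

set_option autoImplicit false

namespace Pool.Agent.J4H44.CP

open Finset Filter Topology
open Pool.Agent.W594.SYZ2 Pool.Agent.W594.SYZ2.TQ Pool.Agent.TH735.AQ Pool.Agent.X324.CF
open Pool.Agent.Y167 (cone Rel)
open Pool.Agent.Y167.CC (LinGrp Preserves IsFundDomain)
open Pool.Agent.J4H47.CG (real real_eq effConeF nefConeF IsAction IsFibre HoldsF hullP hullP_mem
  AffG NormalizesP FixedP IsPullbackP gal_le)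
open Pool.Agent.J4H47.MG (Sys HoldsP Good MovableF IsVariety HoldsM good_mov)

variable {V E R : Type*} [NormedAddCommGroup V] [NormedSpace ℂ V]
  [NormedAddCommGroup E] [NormedSpace ℂ E] [CommRing R] [IsDomain R]
  [Algebra ℂ R] {ρ n : ℕ}
  {𝒜 : Cl ρ → Submodule ℂ R} [GradedAlgebra 𝒜] {Γ : Grp V R} {w : Fin n → Cl ρ}
  {u : Cl ρ} {Ψ : Subgroup (R ≃ₐ[ℂ] R)} {j : E →ₗ[ℂ] V}

theorem fib_sys (D : IsFibre 𝒜 u Ψ) : Sys 𝒜 u Ψ (SemiampleF 𝒜 u) where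
  sections := D.sections
  perm := D.perm
  discrete := D.discrete
  curve := D.curve
  ample := D.ample
  zero := SemiampleF.zero
  add := fun _ _ h h' => h.add h'
  act := fun ψ hψ σ hσ β h => by
    have h1 := Pool.Agent.J4H47.CG.semi_sg D ⟨ψ, hψ⟩ h
    rwa [Pool.Agent.J4H47.CG.sg_eq D ⟨ψ, hψ⟩ hσ] at h1
  eff := fun β ⟨m, hm, h⟩ => by
    obtain ⟨p, hp⟩ := D.point
    obtain ⟨r, hr, hr0⟩ := h p hp
    exact ⟨m, hm, r, hr, fun h0 => hr0 (by rw [h0, map_zero])⟩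

omit [IsDomain R] [GradedAlgebra 𝒜] in
theorem fib_holds {w : Fin n → Cl ρ} (h : HoldsF 𝒜 u Ψ w) : HoldsP 𝒜 Ψ (SemiampleF 𝒜 u) w :=
  ⟨h.mem, h.cover⟩

theorem good_semi [FiniteDimensional ℂ V] (D : IsFibre 𝒜 u Ψ) (hQ : IsQuotient 𝒜 u Γ) :
    Good (SemiampleF 𝒜 u) (semiample 𝒜 Γ j u) where
  sub := fun _ ha => Pool.Agent.J4H47.CG.semi_sub D hQ ha
  bpf := fun _ hs _ ha => bpf_semiample hs ha
  deg := fun _ hβ hs => Pool.Agent.J4H47.CG.deg_semi D hQ hβ hs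

/-- The boundary divisor: a pair is allowed if it preserves the boundary. -/
theorem goodQ_fixed [FiniteDimensional ℂ V] [FiniteDimensional ℂ E] {H₀ : V → V → ℂ}
    (hQ : IsQuotient 𝒜 u Γ) (Rl : Rel (base Γ) j H₀) {ι : Type*}
    [Fintype ι] (Δ : EffDiv 𝒜 Γ ι) (hΔ : NumTrivial Δ j) {Q : Elt V R → Prop}
    (h : ∀ g, FixedP Δ g → Q g) : GoodQ Γ j Q :=
  fun _ _ hu _ hf => h _ (fixed_of_good hQ Rl Δ hΔ hu hf)

end Pool.Agent.J4H44.CP
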