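import Pool.Agent.J4H44.CP.ProdNef

/-!
# The nef cone conjecture for the interior of the cone, and the final form of the general theorem
-/

set_option autoImplicit false

namespace Pool.Agent.J4H44.CP

open Finset Filter Topology
open Pool.Agent.W594.SYZ2 Pool.Agent.W594.SYZ2.TQ Pool.Agent.TH735.AQ Pool.Agent.X324.CF
open Pool.Agent.Y167 (cone Rel)
open Pool.Agent.Y167.CC (LinGrp Preserves IsFundDomain)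
open Pool.Agent.J4H47.CG (real real_eq effConeF nefConeF IsAction IsFibre HoldsF NormalizesP
  FixedP IsPullbackP gal_le)
open Pool.Agent.J4H47.MG (Sys HoldsP HoldsI Good IsProduct ContainsProduct rext rext_rv emb prj
  prj_surj cp_hull_eq closure_eqG plusG IsVariety HoldsM HoldsBig good_mov)

section Product

variable {ρ k : ℕ} {R : Type*} [CommRing R] [IsDomain R] [Algebra ℂ R]
  {𝒜 : Cl ρ → Submodule ℂ R} [GradedAlgebra 𝒜]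
  {ρ' : Fin k → ℕ} {R' : Fin k → Type*} [∀ i, CommRing (R' i)] [∀ i, IsDomain (R' i)]
  [∀ i, Algebra ℂ (R' i)]
  {ℬ : ∀ i, Cl (ρ' i) → Submodule ℂ (R' i)} [∀ i, GradedAlgebra (ℬ i)]
  {p : ∀ i, R' i →ₐ[ℂ] R} {d : Cl ρ ≃+ ∀ i, Cl (ρ' i)}
  {u : Cl ρ} {Ψ : Subgroup (R ≃ₐ[ℂ] R)}

/-- The nef cone conjecture for ample classes: the nef cone contains the rational polyhedral cone
spanned by the classes `w i`, and the translates of this cone under `Ψ` cover the ample cone. -/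
structure HoldsAmple (𝒜 : Cl ρ → Submodule ℂ R) (u : Cl ρ) (Ψ : Subgroup (R ≃ₐ[ℂ] R)) {n : ℕ}
    (w : Fin n → Cl ρ) : Prop where
  mem : ∀ i, real (w i) ∈ nefConeF 𝒜 u
  cover : ∀ x ∈ interior (nefConeF 𝒜 u), ∃ ψ ∈ Ψ, ∃ s, IsAction 𝒜 ψ s ∧
    ∃ c : Fin n → ℝ, (∀ i, 0 ≤ c i) ∧ s x = ∑ i, c i • real (w i)

omit [IsDomain R] [GradedAlgebra 𝒜] in
theorem HoldsAmple.holds {n : ℕ} {w : Fin n → Cl ρ} (h : HoldsAmple 𝒜 u Ψ w) :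
    HoldsI 𝒜 Ψ (SemiampleF 𝒜 u) w := ⟨h.mem, h.cover⟩

/-- The covering of ample classes for products. -/
theorem holds_prodAmple (D : IsFibre 𝒜 u Ψ) (h : IsProduct 𝒜 ℬ p d) (hpt : HasPoints p)
    {Ψ' : ∀ i, Subgroup (R' i ≃ₐ[ℂ] R' i)} (hc : ContainsProduct p Ψ' Ψ)
    {n : Fin k → ℕ} {w : ∀ i, Fin (n i) → Cl (ρ' i)}
    (hw : ∀ i, HoldsAmple (ℬ i) (d u i) (Ψ' i) (w i)) :
    ∃ (N : ℕ) (W : Fin N → Cl ρ), HoldsAmple 𝒜 u Ψ W := by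
  refine ⟨_, fun a => emb d (finSigmaFinEquiv.symm a).1
        (w (finSigmaFinEquiv.symm a).1 (finSigmaFinEquiv.symm a).2), fun a => ?_, ?_⟩
  · have h1 := (hw (finSigmaFinEquiv.symm a).1).mem (finSigmaFinEquiv.symm a).2
    rw [real_eq, ← rext_rv]
    exact nef_cone_emb h _ h1
  · intro x hx
    refine cover_prod (fib_sys D) h hc fun i => (hw i).cover _ ?_
    have h1 := (LinearMap.isOpenMap_of_finiteDimensional (rext (prj d i))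
      (prj_surj d i)).image_interior_subset (nefConeF 𝒜 u) (Set.mem_image_of_mem _ hx)
    refine interior_mono ?_ h1
    rintro _ ⟨y, hy, rfl⟩
    exact nef_cone_prj h hpt D.point i hy

end Product

section Final

variable {V R : Type*} [NormedAddCommGroup V] [NormedSpace ℂ V] [FiniteDimensional ℂ V]
  [CommRing R] [IsDomain R] [Algebra ℂ R] {ρ : ℕ}
  {𝒜 : Cl ρ → Submodule ℂ R} [GradedAlgebra 𝒜] {Γ : Grp V R}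
  {u : Cl ρ} {Ψ : Subgroup (R ≃ₐ[ℂ] R)} {P : Cl ρ → Prop}

/-- The condition `Q` on automorphisms of `X` is either empty, or it is satisfied by all automorphisms
which preserve an effective divisor `Δ` with real coefficients, such that `K_X + Δ` is numerically
trivial, and `Δ` is preserved by the automorphisms of `X` given by elements of `Ψ`. -/
def Old.IsCondition (𝒜 : Cl ρ → Submodule ℂ R) (Ψ : Subgroup (R ≃ₐ[ℂ] R)) (Γ : Grp V R)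
    (Q : Elt V R → Prop) : Prop :=
  (∀ g, Q g) ∨ ∃ (m : ℕ) (Δ : EffDiv 𝒜 Γ (Fin m)), NumTrivial Δ (LinearMap.id : V →ₗ[ℂ] V) ∧
    (∀ ψ ∈ Ψ, NormalizesP 𝒜 Γ (1, ψ) → FixedP Δ (1, ψ)) ∧ ∀ g, FixedP Δ g → Q g

theorem Old.IsCondition.fst {H₀ : V → V → ℂ} {Q : Elt V R → Prop} (h : Old.IsCondition 𝒜 Ψ Γ Q)
    (hQ : IsQuotient 𝒜 u Γ) (Rl : Rel (base Γ) (LinearMap.id : V →ₗ[ℂ] V) H₀) :
    GoodQ Γ (LinearMap.id : V →ₗ[ℂ] V) Q := by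
  rcases h with h | ⟨m, Δ, h1, -, h3⟩
  · exact fun _ _ _ _ _ => h _
  · exact goodQ_fixed hQ Rl Δ h1 h3

theorem Old.IsCondition.snd {Q : Elt V R → Prop} (h : Old.IsCondition 𝒜 Ψ Γ Q) :
    ∀ ψ ∈ Ψ, NormalizesP 𝒜 Γ (1, ψ) → Q (1, ψ) := by
  rcases h with h | ⟨m, Δ, -, h2, h3⟩
  · exact fun _ _ _ => h _
  · exact fun ψ hψ hn => h3 _ (h2 ψ hψ hn)

/-- The general theorem for the cone of effective classes. -/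
theorem final_eff {n : ℕ} {w : Fin n → Cl ρ} (D : Sys 𝒜 u Ψ P) (Hd : HoldsP 𝒜 Ψ P w)
    (hQ : IsQuotient 𝒜 u Γ) (hΓ : ∀ γ ∈ Γ, γ.2 ∈ Ψ)
    {𝒦 : Set (N1 𝒜 Γ (LinearMap.id : V →ₗ[ℂ] V))} (hP : Good P 𝒦)
    (hproj : ∃ (L : Sheaf 𝒜 Γ) (H : V → V → ℂ), L.IsChern H ∧ IsPositiveForm H)
    {Q : Elt V R → Prop} (hcond : Old.IsCondition 𝒜 Ψ Γ Q)
    {M : AddSubgroup (N1 𝒜 Γ (LinearMap.id : V →ₗ[ℂ] V))} {m : ℕ}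
    (hM : Index (intL 𝒜 Γ (LinearMap.id : V →ₗ[ℂ] V)) M m)
    (𝒢 : LinGrp (N1 𝒜 Γ (LinearMap.id : V →ₗ[ℂ] V)))
    (h1 : Preserves 𝒢 (M : Set (N1 𝒜 Γ (LinearMap.id : V →ₗ[ℂ] V))))
    (h2 : Preserves 𝒢 (closure (coneHull 𝒦) ∩ effCone 𝒜 Γ (LinearMap.id : V →ₗ[ℂ] V)))
    (h3 : ∀ g : Elt V R, g.2 ∈ Ψ → NormalizesP 𝒜 Γ g → Q g →
      ∀ G : N1 𝒜 Γ (LinearMap.id : V →ₗ[ℂ] V) ≃ₗ[ℝ] N1 𝒜 Γ (LinearMap.id : V →ₗ[ℂ] V),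
        IsPullbackP g G → G ∈ 𝒢) :
    (∃ S : Finset (N1 𝒜 Γ (LinearMap.id : V →ₗ[ℂ] V)),
      ↑S ⊆ integral 𝒜 Γ (LinearMap.id : V →ₗ[ℂ] V) ∧
      cone S ⊆ closure (coneHull 𝒦) ∩ effCone 𝒜 Γ (LinearMap.id : V →ₗ[ℂ] V) ∧
      IsFundDomain 𝒢 (closure (coneHull 𝒦) ∩ effCone 𝒜 Γ (LinearMap.id : V →ₗ[ℂ] V)) (cone S)) ∧
    closure (coneHull 𝒦) ∩ effCone 𝒜 Γ (LinearMap.id : V →ₗ[ℂ] V) =
      convexHull ℝ (closure (coneHull 𝒦) ∩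
        {a | ∃ m : ℕ, 0 < m ∧ (m : ℝ) • a ∈ integral 𝒜 Γ (LinearMap.id : V →ₗ[ℂ] V)}) := by
  obtain ⟨H₀, Rl⟩ := rel_id hQ hproj
  exact ⟨core D Hd hQ (gal_le hΓ) hP Rl (hcond.fst hQ Rl) hcond.snd hM 𝒢 h1 h2
    (fun g hg1 hg2 _ hg3 G hG => h3 g hg1 hg2 hg3 G hG), plusG D Hd hQ (gal_le hΓ) hP Rl⟩

/-- The general theorem for the convex hull of the rational classes. -/
theorem final_plus {n : ℕ} {w : Fin n → Cl ρ} (D : Sys 𝒜 u Ψ P) (Hd : HoldsI 𝒜 Ψ P w)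
    (hQ : IsQuotient 𝒜 u Γ) (hΓ : ∀ γ ∈ Γ, γ.2 ∈ Ψ)
    {𝒦 : Set (N1 𝒜 Γ (LinearMap.id : V →ₗ[ℂ] V))} (hP : Good P 𝒦)
    (hproj : ∃ (L : Sheaf 𝒜 Γ) (H : V → V → ℂ), L.IsChern H ∧ IsPositiveForm H)
    {Q : Elt V R → Prop} (hcond : Old.IsCondition 𝒜 Ψ Γ Q)
    {M : AddSubgroup (N1 𝒜 Γ (LinearMap.id : V →ₗ[ℂ] V))} {m : ℕ}
    (hM : Index (intL 𝒜 Γ (LinearMap.id : V →ₗ[ℂ] V)) M m)
    (𝒢 : LinGrp (N1 𝒜 Γ (LinearMap.id : V →ₗ[ℂ] V)))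
    (h1 : Preserves 𝒢 (M : Set (N1 𝒜 Γ (LinearMap.id : V →ₗ[ℂ] V))))
    (h2 : Preserves 𝒢 (closure (coneHull 𝒦)))
    (h3 : ∀ g : Elt V R, g.2 ∈ Ψ → NormalizesP 𝒜 Γ g → Q g →
      ∀ G : N1 𝒜 Γ (LinearMap.id : V →ₗ[ℂ] V) ≃ₗ[ℝ] N1 𝒜 Γ (LinearMap.id : V →ₗ[ℂ] V),
        IsPullbackP g G → G ∈ 𝒢) :
    ∃ S : Finset (N1 𝒜 Γ (LinearMap.id : V →ₗ[ℂ] V)),
      ↑S ⊆ integral 𝒜 Γ (LinearMap.id : V →ₗ[ℂ] V) ∧
      cone S ⊆ convexHull ℝ (closure (coneHull 𝒦) ∩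
        {a | ∃ m : ℕ, 0 < m ∧ (m : ℝ) • a ∈ integral 𝒜 Γ (LinearMap.id : V →ₗ[ℂ] V)}) ∧
      IsFundDomain 𝒢 (convexHull ℝ (closure (coneHull 𝒦) ∩
        {a | ∃ m : ℕ, 0 < m ∧ (m : ℝ) • a ∈ integral 𝒜 Γ (LinearMap.id : V →ₗ[ℂ] V)}))
        (cone S) := by
  obtain ⟨H₀, Rl⟩ := rel_id hQ hproj
  rw [← cp_hull_eq D hQ (gal_le hΓ) hP Rl]
  refine core_cp D Hd hQ (gal_le hΓ) Rl (hcond.fst hQ Rl) hcond.snd hM 𝒢 h1 (fun g hg a ha => ?_)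
    (fun g hg1 hg2 _ hg3 G hG => h3 g hg1 hg2 hg3 G hG)
  rw [← closure_eqG D hQ (gal_le hΓ) hP Rl] at ha ⊢
  exact h2 g hg a ha

end Final

end Pool.Agent.J4H44.CP
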