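import Pool.Agent.J4H44.CP.Nef

/-!
# The nef cone conjecture for products
-/

set_option autoImplicit false

namespace Pool.Agent.J4H44.CP

open Finset Filter Topology
open Pool.Agent.W594.SYZ2 Pool.Agent.TH735.AQ Pool.Agent.X324.CF
open Pool.Agent.J4H47.CG (real real_eq effConeF nefConeF IsAction IsFibre HoldsF hullP hullP_mem
  lin_ext single_sum_int)
open Pool.Agent.J4H47.MG (Sys HoldsP Good IsProduct ContainsProduct rext rext_apply rext_rv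
  hull_map' clos_map' emb prj prj_apply d_emb sum_emb eq_emb mem_emb exists_emb eff_iff
  prj_emb_sum eff_cone_prj eff_cone_emb prj_surj)

variable {ρ k : ℕ} {R : Type*} [CommRing R] [IsDomain R] [Algebra ℂ R]
  {𝒜 : Cl ρ → Submodule ℂ R} [GradedAlgebra 𝒜]
  {ρ' : Fin k → ℕ} {R' : Fin k → Type*} [∀ i, CommRing (R' i)] [∀ i, IsDomain (R' i)]
  [∀ i, Algebra ℂ (R' i)]
  {ℬ : ∀ i, Cl (ρ' i) → Submodule ℂ (R' i)} [∀ i, GradedAlgebra (ℬ i)]
  {p : ∀ i, R' i →ₐ[ℂ] R} {d : Cl ρ ≃+ ∀ i, Cl (ρ' i)}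

/-- The points of the product of the varieties `F_i` are the tuples of points: all points of the
spectra of the Cox rings of the factors are the components of a point of the spectrum of the Cox ring of
the product. -/
def HasPoints (p : ∀ i, R' i →ₐ[ℂ] R) : Prop :=
  ∀ q : ∀ i, R' i →ₐ[ℂ] ℂ, ∃ P : R →ₐ[ℂ] ℂ, ∀ i, P.comp (p i) = q i

section Points

variable {u : Cl ρ}

omit [IsDomain R] [GradedAlgebra 𝒜] [∀ i, IsDomain (R' i)] [∀ i, GradedAlgebra (ℬ i)] in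
/-- A section which does not vanish at a point. -/
theorem exists_prod (h : IsProduct 𝒜 ℬ p d) {β : Cl ρ} {P : R →ₐ[ℂ] ℂ} {r : R} (hr : r ∈ 𝒜 β)
    (h0 : P r ≠ 0) : ∃ f : ∀ l, R' l, (∀ l, f l ∈ ℬ l (d β l)) ∧ ∀ l, P (p l (f l)) ≠ 0 := by
  by_contra hcon
  push Not at hcon
  apply h0
  rw [h.span] at hr
  have h1 : Submodule.span ℂ {r | ∃ f : ∀ l, R' l, (∀ l, f l ∈ ℬ l (d β l)) ∧
      r = ∏ l, p l (f l)} ≤ LinearMap.ker P.toLinearMap := by
    rw [Submodule.span_le]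
    rintro _ ⟨f, hf, rfl⟩
    obtain ⟨l, hl⟩ := hcon f hf
    change P (∏ l, p l (f l)) = 0
    rw [map_prod]
    exact Finset.prod_eq_zero (Finset.mem_univ l) hl
  exact h1 hr

omit [IsDomain R] [GradedAlgebra 𝒜] [∀ i, IsDomain (R' i)] [∀ i, GradedAlgebra (ℬ i)] in
/-- The components of a point of `F`. -/
theorem semi_comp (h : IsProduct 𝒜 ℬ p d) {P : R →ₐ[ℂ] ℂ} (hP : Semistable 𝒜 u P) (i : Fin k) :
    Semistable (ℬ i) (d u i) (P.comp (p i)) := by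
  obtain ⟨m, hm, r, hr, hr0⟩ := hP
  obtain ⟨f, hf, hf0⟩ := exists_prod h hr hr0
  refine ⟨m, hm, f i, ?_, hf0 i⟩
  have h1 := hf i
  rwa [map_nsmul] at h1

omit [IsDomain R] [GradedAlgebra 𝒜] [∀ i, IsDomain (R' i)] in
/-- A tuple of points is a point. -/
theorem semi_of (h : IsProduct 𝒜 ℬ p d) {P : R →ₐ[ℂ] ℂ}
    (hP : ∀ i, Semistable (ℬ i) (d u i) (P.comp (p i))) : Semistable 𝒜 u P := by
  classical
  choose m hm r hr hr0 using hP
  have hM : ∀ i, ∃ c : ℕ, ∏ l, m l = m i * c := fun i =>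
    Finset.dvd_prod_of_mem m (Finset.mem_univ i)
  choose c hc using hM
  refine ⟨∏ l, m l, Finset.prod_pos fun l _ => hm l, ∏ l, p l (r l ^ c l), ?_, ?_⟩
  · rw [h.span]
    refine Submodule.subset_span ⟨fun l => r l ^ c l, fun l => ?_, rfl⟩
    have h1 := SetLike.pow_mem_graded (c l) (hr l)
    rw [map_nsmul]
    change r l ^ c l ∈ ℬ l ((∏ l, m l) • d u l)
    rw [hc l, mul_comm, mul_smul]
    exact h1
  · rw [map_prod]
    refine Finset.prod_ne_zero_iff.2 fun l _ => ?_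
    rw [map_pow, map_pow]
    exact pow_ne_zero _ (hr0 l)

omit [IsDomain R] [GradedAlgebra 𝒜] [∀ i, IsDomain (R' i)] in
/-- The components of a semiample class are semiample. -/
theorem semi_prj (h : IsProduct 𝒜 ℬ p d) (hpt : HasPoints p) (h0 : ∃ P, Semistable 𝒜 u P)
    {β : Cl ρ} (hs : SemiampleF 𝒜 u β) (i : Fin k) : SemiampleF (ℬ i) (d u i) (d β i) := by
  classical
  obtain ⟨P₀, hP₀⟩ := h0
  obtain ⟨m, hm, h1⟩ := hs
  refine ⟨m, hm, fun q hq => ?_⟩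
  obtain ⟨P, hP⟩ := hpt (Function.update (fun l => P₀.comp (p l)) i q)
  have hPs : Semistable 𝒜 u P := by
    refine semi_of h fun l => ?_
    rw [hP l]
    by_cases hl : l = i
    · subst hl
      rw [Function.update_self]
      exact hq
    · rw [Function.update_of_ne hl]
      exact semi_comp h hP₀ l
  obtain ⟨r, hr, hr0⟩ := h1 P hPs
  obtain ⟨f, hf, hf0⟩ := exists_prod h hr hr0
  have h2 := hf i
  rw [map_nsmul] at h2
  refine ⟨f i, h2, ?_⟩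
  have h3 := hf0 i
  have h4 : P (p i (f i)) = (P.comp (p i)) (f i) := rfl
  rw [h4, hP i, Function.update_self] at h3
  exact h3

omit [IsDomain R] [GradedAlgebra 𝒜] [∀ i, IsDomain (R' i)] in
/-- The pullback of a semiample class is semiample. -/
theorem semi_emb (h : IsProduct 𝒜 ℬ p d) {i : Fin k} {β : Cl (ρ' i)}
    (hs : SemiampleF (ℬ i) (d u i) β) : SemiampleF 𝒜 u (emb d i β) := by
  obtain ⟨m, hm, h1⟩ := hs
  refine ⟨m, hm, fun P hP => ?_⟩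
  obtain ⟨r, hr, hr0⟩ := h1 _ (semi_comp h hP i)
  refine ⟨p i r, ?_, hr0⟩
  have h2 := mem_emb h hr
  rwa [map_nsmul] at h2

omit [IsDomain R] [GradedAlgebra 𝒜] [∀ i, IsDomain (R' i)] in
theorem nef_cone_prj (h : IsProduct 𝒜 ℬ p d) (hpt : HasPoints p) (h0 : ∃ P, Semistable 𝒜 u P)
    (i : Fin k) {x : Fin ρ → ℝ}
    (hx : x ∈ nefConeF 𝒜 u) : rext (prj d i) x ∈ nefConeF (ℬ i) (d u i) :=
  clos_map' (P := SemiampleF 𝒜 u) (Q := SemiampleF (ℬ i) (d u i)) (rext (prj d i)) (fun β hβ => by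
    rw [rext_rv]
    exact hullP_mem (P := SemiampleF (ℬ i) (d u i)) (semi_prj h hpt h0 hβ i)) hx

omit [IsDomain R] [GradedAlgebra 𝒜] [∀ i, IsDomain (R' i)] in
theorem nef_cone_emb (h : IsProduct 𝒜 ℬ p d) (i : Fin k) {x : Fin (ρ' i) → ℝ}
    (hx : x ∈ nefConeF (ℬ i) (d u i)) : rext (emb d i) x ∈ nefConeF 𝒜 u :=
  clos_map' (P := SemiampleF (ℬ i) (d u i)) (Q := SemiampleF 𝒜 u) (rext (emb d i)) (fun β hβ => by
    rw [rext_rv]
    exact hullP_mem (P := SemiampleF 𝒜 u) (semi_emb h hβ)) hx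

end Points

section Action

variable {u : Cl ρ} {Ψ : Subgroup (R ≃ₐ[ℂ] R)} {P : Cl ρ → Prop}

/-- Every class of `F_l` is a difference of effective classes. -/
theorem gens_factor (D : Sys 𝒜 u Ψ P) (h : IsProduct 𝒜 ℬ p d) (l : Fin k)
    (H : AddSubgroup (Cl (ρ' l))) (hH : ∀ β, (∃ r ∈ ℬ l β, r ≠ 0) → β ∈ H) : H = ⊤ := by
  rw [eq_top_iff]
  intro β _
  obtain ⟨m, h1, h2⟩ := D.sections (emb d l β)
  have h3 := hH _ ((eff_iff h _).1 h1 l)
  have h4 := hH _ ((eff_iff h _).1 h2 l)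
  have h5 := H.sub_mem h3 h4
  have h6 : d (emb d l β + m • u) l - d (m • u) l = β := by
    rw [map_add]
    change d (emb d l β) l + d (m • u) l - d (m • u) l = β
    rw [d_emb, Pi.single_eq_same, add_sub_cancel_right]
  rwa [h6] at h5

/-- The action of the lift of an automorphism of a factor. -/
theorem lift_action (D : Sys 𝒜 u Ψ P) (h : IsProduct 𝒜 ℬ p d) {i : Fin k}
    {ψ : R' i ≃ₐ[ℂ] R' i} {s : (Fin (ρ' i) → ℝ) →ₗ[ℝ] (Fin (ρ' i) → ℝ)}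
    (hs : IsAction (ℬ i) ψ s) {φ : R ≃ₐ[ℂ] R} (hφ : φ ∈ Ψ)
    (h1 : ∀ r, φ (p i r) = p i (ψ r)) (h2 : ∀ l, l ≠ i → ∀ r, φ (p l r) = p l r) :
    ∃ S, IsAction 𝒜 φ S ∧ (∀ y, S (rext (emb d i) y) = rext (emb d i) (s y)) ∧
      ∀ l, l ≠ i → ∀ y, S (rext (emb d l) y) = rext (emb d l) y := by
  obtain ⟨σ, hσ⟩ := D.perm φ hφ
  obtain ⟨τ, hτ, hsτ⟩ := hs
  have hi : ∀ β, σ (emb d i β) = emb d i (τ β) := by
    have h3 : ((σ.toAddMonoidHom).comp (emb d i)).eqLocus ((emb d i).comp τ.toAddMonoidHom)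
        = ⊤ := by
      refine gens_factor D h i _ ?_
      rintro β ⟨r, hr, hr0⟩
      have h4 := hσ _ _ (mem_emb h hr)
      rw [h1] at h4
      refine DirectSum.degree_eq_of_mem_mem 𝒜 h4 (mem_emb h (hτ β r hr)) ?_
      rw [Ne, map_eq_zero_iff _ (h.inj i), map_eq_zero_iff _ ψ.injective]
      exact hr0
    intro β
    have h4 : β ∈ ((σ.toAddMonoidHom).comp (emb d i)).eqLocus
        ((emb d i).comp τ.toAddMonoidHom) := by rw [h3]; trivial
    exact h4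
  have hl : ∀ l, l ≠ i → ∀ β, σ (emb d l β) = emb d l β := by
    intro l hl
    have h3 : ((σ.toAddMonoidHom).comp (emb d l)).eqLocus (emb d l) = ⊤ := by
      refine gens_factor D h l _ ?_
      rintro β ⟨r, hr, hr0⟩
      have h4 := hσ _ _ (mem_emb h hr)
      rw [h2 l hl] at h4
      refine DirectSum.degree_eq_of_mem_mem 𝒜 h4 (mem_emb h hr) ?_
      rw [Ne, map_eq_zero_iff _ (h.inj l)]
      exact hr0
    intro β
    have h4 : β ∈ ((σ.toAddMonoidHom).comp (emb d l)).eqLocus (emb d l) := by rw [h3]; trivial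
    exact h4
  refine ⟨rext σ.toAddMonoidHom, ⟨σ, hσ, fun β => rext_rv _ β⟩, fun y => ?_, fun l hli y => ?_⟩
  · have h3 : rext σ.toAddMonoidHom ∘ₗ rext (emb d i) = rext (emb d i) ∘ₗ s := by
      refine lin_ext fun β => ?_
      rw [LinearMap.comp_apply, LinearMap.comp_apply, rext_rv, rext_rv]
      have h4 : s (rv β) = rv (τ β) := hsτ β
      rw [h4, rext_rv]
      exact congrArg rv (hi β)
    exact LinearMap.congr_fun h3 y
  · have h3 : rext σ.toAddMonoidHom ∘ₗ rext (emb d l) = rext (emb d l) := by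
      refine lin_ext fun β => ?_
      rw [LinearMap.comp_apply, rext_rv, rext_rv]
      exact congrArg rv (hl l hli β)
    exact LinearMap.congr_fun h3 y

/-- The action of products. -/
theorem prod_action (D : Sys 𝒜 u Ψ P) (h : IsProduct 𝒜 ℬ p d)
    {Ψ' : ∀ i, Subgroup (R' i ≃ₐ[ℂ] R' i)} (hc : ContainsProduct p Ψ' Ψ)
    (ψ : ∀ i, R' i ≃ₐ[ℂ] R' i) (hψ : ∀ i, ψ i ∈ Ψ' i)
    (s : ∀ i, (Fin (ρ' i) → ℝ) →ₗ[ℝ] (Fin (ρ' i) → ℝ)) (hs : ∀ i, IsAction (ℬ i) (ψ i) (s i))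
    (T : Finset (Fin k)) : ∃ φ ∈ Ψ, ∃ S, IsAction 𝒜 φ S ∧
      (∀ l ∈ T, ∀ y, S (rext (emb d l) y) = rext (emb d l) (s l y)) ∧
      ∀ l, l ∉ T → ∀ y, S (rext (emb d l) y) = rext (emb d l) y := by
  classical
  induction T using Finset.induction_on with
  | empty =>
    exact ⟨1, Ψ.one_mem, LinearMap.id, ⟨AddEquiv.refl _, fun β r hr => hr, fun β => rfl⟩,
      fun l hl => absurd hl (Finset.notMem_empty l), fun l _ y => rfl⟩
  | insert i T hi ih =>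
    obtain ⟨φ, hφ, S, ⟨σ, hσ1, hσ2⟩, h1, h2⟩ := ih
    obtain ⟨φ', hφ', h3, h4⟩ := hc i (ψ i) (hψ i)
    obtain ⟨S', ⟨σ', hσ'1, hσ'2⟩, h5, h6⟩ := lift_action D h (hs i) hφ' h3 h4
    refine ⟨φ' * φ, Ψ.mul_mem hφ' hφ, S' ∘ₗ S, ⟨σ.trans σ', fun β r hr =>
      hσ'1 _ _ (hσ1 β r hr), fun β => ?_⟩, fun l hl y => ?_, fun l hl y => ?_⟩
    · rw [LinearMap.comp_apply, hσ2, hσ'2]
      rfl
    · rw [LinearMap.comp_apply]
      rcases Finset.mem_insert.1 hl with rfl | hl'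
      · rw [h2 l hi, h5]
      · rw [h1 l hl', h6 l (fun h => hi (h ▸ hl'))]
    · rw [Finset.mem_insert, not_or] at hl
      rw [LinearMap.comp_apply, h2 l hl.2, h6 l hl.1]

/-- The covering of a class from the coverings of its components. -/
theorem cover_prod (D : Sys 𝒜 u Ψ P) (h : IsProduct 𝒜 ℬ p d)
    {Ψ' : ∀ i, Subgroup (R' i ≃ₐ[ℂ] R' i)} (hc : ContainsProduct p Ψ' Ψ)
    {n : Fin k → ℕ} {w : ∀ i, Fin (n i) → Cl (ρ' i)} {x : Fin ρ → ℝ}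
    (hx : ∀ i, ∃ ψ ∈ Ψ' i, ∃ s, IsAction (ℬ i) ψ s ∧ ∃ c : Fin (n i) → ℝ, (∀ a, 0 ≤ c a) ∧
        s (rext (prj d i) x) = ∑ a, c a • real (w i a)) :
    ∃ φ ∈ Ψ, ∃ S, IsAction 𝒜 φ S ∧ ∃ c : Fin (∑ i, n i) → ℝ, (∀ a, 0 ≤ c a) ∧
      S x = ∑ a, c a • real (emb d (finSigmaFinEquiv.symm a).1
        (w (finSigmaFinEquiv.symm a).1 (finSigmaFinEquiv.symm a).2)) := by
  classical
  let e : (Σ i : Fin k, Fin (n i)) ≃ Fin (∑ i, n i) := finSigmaFinEquiv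
  choose ψ hψ s hs c hc0 hcs using hx
  obtain ⟨φ, hφ, S, hS, h2, -⟩ := prod_action D h hc ψ hψ s hs Finset.univ
  refine ⟨φ, hφ, S, hS, fun a => c (e.symm a).1 (e.symm a).2, fun a => hc0 _ _, ?_⟩
  have h3 : S x = ∑ i, ∑ a, c i a • rv (emb d i (w i a)) := by
    conv_lhs => rw [← prj_emb_sum (d := d) x, map_sum]
    refine Finset.sum_congr rfl fun i _ => ?_
    rw [h2 i (Finset.mem_univ i), hcs, map_sum]
    refine Finset.sum_congr rfl fun a _ => ?_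
    rw [map_smul, real_eq, rext_rv]
  have h4 := Fintype.sum_sigma (fun q : (Σ i : Fin k, Fin (n i)) =>
    c q.1 q.2 • rv (emb d q.1 (w q.1 q.2)))
  dsimp only at h4
  rw [h3, ← h4]
  refine Fintype.sum_equiv e _ _ fun q => ?_
  have h5 : finSigmaFinEquiv.symm (e q) = q := e.symm_apply_apply q
  dsimp only
  rw [h5]
  rfl

/-- **The nef cone conjecture for products.** -/
theorem holds_prodNef (D : IsFibre 𝒜 u Ψ) (h : IsProduct 𝒜 ℬ p d) (hpt : HasPoints p)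
    {Ψ' : ∀ i, Subgroup (R' i ≃ₐ[ℂ] R' i)} (hc : ContainsProduct p Ψ' Ψ)
    {n : Fin k → ℕ} {w : ∀ i, Fin (n i) → Cl (ρ' i)}
    (hw : ∀ i, HoldsF (ℬ i) (d u i) (Ψ' i) (w i)) :
    ∃ (N : ℕ) (W : Fin N → Cl ρ), HoldsF 𝒜 u Ψ W := by
  refine ⟨_, fun a => emb d (finSigmaFinEquiv.symm a).1
        (w (finSigmaFinEquiv.symm a).1 (finSigmaFinEquiv.symm a).2), fun a => ?_, ?_⟩
  · obtain ⟨h1, h2⟩ := (hw (finSigmaFinEquiv.symm a).1).mem (finSigmaFinEquiv.symm a).2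
    rw [real_eq, ← rext_rv]
    exact ⟨nef_cone_emb h _ h1, eff_cone_emb h _ h2⟩
  · rintro x ⟨hx1, hx2⟩
    exact cover_prod (fib_sys D) h hc fun i =>
      (hw i).cover _ ⟨nef_cone_prj h hpt D.point i hx1, eff_cone_prj h i hx2⟩

end Action

end Pool.Agent.J4H44.CP
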